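import Pool.Agent.Lib_helper23.TF.Main

set_option autoImplicit false

namespace Pool.Agent.Results.MP_bc6371_lc.IdempotentNotDistal

open Cardinal FirstOrder Pool.Agent.Lib_helper23.SD

/-- There is a complete NIP theory `T` with infinite models, in a countable language, which is not
distal, while in all its `κ`-saturated models, `κ` uncountable, every type over the model which is
invariant over a set of size less than `κ` is domination-equivalent to its square. -/
theorem result : ∃ (L : FirstOrder.Language.{0, 0}) (T : L.Theory),
    -- `L` is countable, `T` is complete with infinite models, and has `κ`-saturated models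
    Countable L.Symbols ∧ T.IsComplete ∧ (∀ (U : Type) [L.Structure U], U ⊨ T → Infinite U) ∧
    (∀ κ : Cardinal.{0}, ∃ (U : Type) (_ : L.Structure U), U ⊨ T ∧ Saturated L κ U) ∧
    ∀ (κ : Cardinal.{0}) (U : Type) [L.Structure U], ℵ₀ < κ → U ⊨ T → Saturated L κ U →
      -- `T` is NIP and not distal
      NIP L U ∧ ¬ Distal L U ∧
      -- every invariant type is domination-equivalent to its square
      ∀ (α : Type) [Finite α] (p : Typ L (Set.univ : Set U) α),
        (∃ A : Set U, #A < κ ∧ InvOver L A p.sets) →
        Dominates L κ p.sets (tensor L κ p.sets p.sets) ∧
        Dominates L κ (tensor L κ p.sets p.sets) p.sets :=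
  Pool.Agent.Lib_helper23.TF.main

end Pool.Agent.Results.MP_bc6371_lc.IdempotentNotDistal
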