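import Pool.Agent.Lib_helper23.SD.Main
import Pool.Agent.Lib_helper23.SD.PW

set_option autoImplicit false

namespace Pool.Agent.Results.MP_bc6371_lc.StronglyDependent

open Cardinal Pool.Agent.Lib_helper23.SD

/-- Let `U` be a `κ`-saturated structure, `κ` uncountable. If its theory is strongly dependent and
not distal, then there is a global type `p`, invariant over a countable set, such that
`P ≥_D P ⊗ p` holds for no invariant type `P`, and no power of `p` dominates a higher power. Local
form: in an NIP theory, a sequence in a parameter-free definable set `P₀` which is not distal gives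
such a `p` in `P₀`, with `P ≥_D P ⊗ p` for no invariant type `P` concentrating on a parameter-free
definable set without ict-pattern of infinite depth. -/
theorem result (L : FirstOrder.Language.{0, 0}) (U : Type) [L.Structure U] (κ : Cardinal.{0})
    (hκ : ℵ₀ < κ) (hs : Saturated L κ U) :
    (StronglyDependent L U → ¬ Distal L U →
      ∃ (α : Type) (_ : Finite α) (p : Typ L (Set.univ : Set U) α),
        (∃ A : Set U, A.Countable ∧ InvOver L A p.sets) ∧
        (∀ (γ : Type) [Finite γ] (P : Typ L (Set.univ : Set U) γ),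
          ¬ Dominates L κ P.sets (tensor L κ P.sets p.sets)) ∧
        ∀ n m : ℕ, n < m → ¬ Dominates L κ (pow L κ p.sets n) (pow L κ p.sets m)) ∧
    (NIP L U → ∀ (α : Type) [Finite α] (P₀ : Set (α → U)), (∅ : Set U).Definable L P₀ →
      ¬ DistalIn L P₀ →
      ∃ p : Typ L (Set.univ : Set U) α, P₀ ∈ p.sets ∧
        (∃ A : Set U, A.Countable ∧ InvOver L A p.sets) ∧
        ∀ (γ : Type) [Finite γ] (P : Typ L (Set.univ : Set U) γ),
          (∃ Q ∈ P.sets, (∅ : Set U).Definable L Q ∧ ¬ IctIn L Q) →
          ¬ Dominates L κ P.sets (tensor L κ P.sets p.sets)) := by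
  refine ⟨fun hS hD => ?_, fun hN α _ P₀ hP hD => SD_main hκ hs hN hP hD⟩
  obtain ⟨α, hα, p, ⟨A, hA, hpA⟩, h⟩ := SD_absorb hκ hs hS hD
  refine ⟨α, hα, p, ⟨A, hA, hpA⟩, fun γ _ P => h γ P, fun n m hnm hd => ?_⟩
  have hAκ := SM_countable hκ hA
  have hfin : Finite (PowVar α n) := PW_fin n
  have := PW_down hκ hs p hAκ hpA (pow L κ p.sets n) (Nat.succ_le_of_lt hnm) hd
  obtain ⟨t, ht, -⟩ := PW_typ hκ hs p hAκ hpA n
  have h2 := h (PowVar α n) t
  rw [ht] at h2
  exact h2 this

end Pool.Agent.Results.MP_bc6371_lc.StronglyDependent
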